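import Mathlib
import Pool.Agent.Y279.VT.Main

set_option autoImplicit false

/-!
# MP_81f94f_an: a rigidity theorem for the norms of powers, and the negative answer in strong form

Let `A` be `M(0,1)` or `L^1[0,1]` and let `a ∈ A` have no power equal to `0`.  Then the equality
`‖a^{2n}‖ = ‖a^n‖ ^ 2` holds only for finitely many `n`.  Consequently every sequence of positive
numbers with infinitely many such equalities fails to be a sequence of norms of powers, and every
decreasing null sequence `ρ` can be changed on blocks `(s_j, 2 s_j]`, as sparse as we wish, so that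
the sequence `(ρ_n ^ n)` becomes a sequence with (i)-(iv) which is not a sequence of norms.

The objects of the problem (`truncConv`, `measPow`, `funConv`, `funPow`, `IsNormSeqMeasure`,
`IsNormSeqL1`) are those of the file `FlatRunsNotNormSequence`.

Idea of the proof.  If `‖b * b‖ = ‖b‖ ^ 2` then `|b|` lives on `(0,1/2)`.  Let `b = a^m`, `c = a^n`
be two such powers, with Laplace transforms `P`, `Q`, and let `F` be the transform of `a`.  The
Wronskian `W = n P' Q - m P Q'` is `O(exp |Re z|)` in the left half plane, as `b` and `c` live on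
`(0,1/2)`, and `F W = O(exp (-Re z))` in the right half plane.  As no power of `a` vanishes, `F` does
not decay exponentially, and an argument in the style of Titchmarsh (Jensen, Harnack and
Phragmén-Lindelöf) gives `W = O(exp (-Re z))` there.  So `W = 0` by Liouville, `P ^ n = Q ^ m` for the
untruncated powers, and `|P| ≤ ‖a^n‖ ^ (m/n)` on the imaginary axis.  If this happens for infinitely
many `n` then `P = 0`.
-/

namespace Pool.Agent.Results.MP_81f94f_an.FinitelyManyFlatSteps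

open MeasureTheory Set Filter Topology
open scoped ENNReal NNReal
open Pool.Agent.Results.MP_81f94f_an.FlatRunsNotNormSequence

/-- The norm `‖a^n‖` of the `n`-th power of `a ∈ M(0,1)`: the total variation. -/
noncomputable def measNorm (a : ComplexMeasure ℝ) (n : ℕ) : ℝ≥0∞ := (measPow a n).variation univ

/-- The norm `‖f^n‖` of the `n`-th power of `f ∈ L^1[0,1]`. -/
noncomputable def funNorm (f : ℝ → ℂ) (n : ℕ) : ℝ := ∫ t in (0 : ℝ)..1, ‖funPow f n t‖

/-- The conditions (i), (ii), (iii), (iv) of the problem for a sequence `(ω_n)_{n ≥ 1}`. -/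
def Conditions (ω : ℕ → ℝ) : Prop :=
  (∀ n, 1 ≤ n → 0 ≤ ω n) ∧ (∀ m n, 1 ≤ m → 1 ≤ n → ω (m + n) ≤ ω m * ω n) ∧
    Tendsto (fun n : ℕ => ω n ^ (1 / (n : ℝ))) atTop (𝓝 0) ∧
    ∀ m n, 1 ≤ m → m ≤ n → ω n ^ (1 / (n : ℝ)) ≤ ω m ^ (1 / (m : ℝ))

/-- complex measures have finite variation -/
theorem finite_variation (c : ComplexMeasure ℝ) : IsFiniteMeasure c.variation := by
  have h : c.variation ≤ (ComplexMeasure.re c).totalVariation +
      (ComplexMeasure.im c).totalVariation := by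
    apply VectorMeasure.variation_le_of_forall_enorm_le
    intro E hE
    rw [Measure.add_apply, SignedMeasure.totalVariation_eq_variation,
      SignedMeasure.totalVariation_eq_variation]
    have h1 := VectorMeasure.enorm_measure_le_variation (ComplexMeasure.re c) E
    have h2 := VectorMeasure.enorm_measure_le_variation (ComplexMeasure.im c) E
    refine le_trans ?_ (add_le_add h1 h2)
    have e1 : (ComplexMeasure.re c) E = (c E).re := rfl
    have e2 : (ComplexMeasure.im c) E = (c E).im := rfl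
    rw [e1, e2, ← ofReal_norm, ← ofReal_norm, ← ofReal_norm,
      ← ENNReal.ofReal_add (norm_nonneg _) (norm_nonneg _)]
    apply ENNReal.ofReal_le_ofReal
    exact Complex.norm_le_abs_re_add_abs_im _
  exact isFiniteMeasure_of_le _ h

theorem meas_part {a : ComplexMeasure ℝ} (ha : a.restrict (Ioo 0 1) = a)
    (hne : ∀ n, 1 ≤ n → measPow a n ≠ 0) :
    ∃ N : ℕ, ∀ n ≥ N, measNorm a (2 * n) < (measNorm a n) ^ 2 := by
  have := finite_variation a
  exact Y279.VT.eventually_strict ha hne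

theorem fun_norm {f : ℝ → ℂ} (hf : IntegrableOn f (Ioo 0 1)) {n : ℕ} (hn : 1 ≤ n) :
    measNorm (toMeas f) n = ENNReal.ofReal (funNorm f n) := by
  obtain ⟨k, rfl⟩ : ∃ k, n = k + 1 := ⟨n - 1, by omega⟩
  have h := toMeas_pow hf k
  rw [measNorm, h.2, toMeas_variation h.1]
  rfl

theorem funNorm_nonneg (f : ℝ → ℂ) (n : ℕ) : 0 ≤ funNorm f n :=
  intervalIntegral.integral_nonneg zero_le_one fun _ _ => norm_nonneg _

theorem fun_part {f : ℝ → ℂ} (hf : IntegrableOn f (Icc 0 1))
    (hne : ∀ n, 1 ≤ n → funNorm f n ≠ 0) :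
    ∃ N : ℕ, ∀ n ≥ N, funNorm f (2 * n) < (funNorm f n) ^ 2 := by
  have hf' : IntegrableOn f (Ioo 0 1) := hf.mono_set Ioo_subset_Icc_self
  obtain ⟨N, hN⟩ := meas_part (a := toMeas f) (toMeas_restrict hf') (by
    intro n hn h0
    have h1 := fun_norm hf' hn
    rw [measNorm, h0] at h1
    simp only [VectorMeasure.variation_zero, Measure.coe_zero, Pi.zero_apply] at h1
    have h2 : 0 < ENNReal.ofReal (funNorm f n) :=
      ENNReal.ofReal_pos.2 (lt_of_le_of_ne (funNorm_nonneg f n) (Ne.symm (hne n hn)))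
    rw [← h1] at h2
    exact lt_irrefl _ h2)
  refine ⟨N + 1, fun n hn => ?_⟩
  have h1 := hN n (by omega)
  rw [fun_norm hf' (by omega), fun_norm hf' (by omega),
    ← ENNReal.ofReal_pow (funNorm_nonneg f n)] at h1
  exact (ENNReal.ofReal_lt_ofReal_iff_of_nonneg (funNorm_nonneg f _)).1 h1

/-! ### The modified sequences -/

section profile

variable (s : ℕ → ℕ)

open Classical in
/-- the index `θ n` from which the value at `n` is taken: the smallest element of
`{n} ∪ {s_j : s_j ≤ n ≤ 2 s_j}` -/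
noncomputable def theta (n : ℕ) : ℕ :=
  Nat.find (p := fun t => t = n ∨ ∃ j, t = s j ∧ s j ≤ n ∧ n ≤ 2 * s j) ⟨n, Or.inl rfl⟩

theorem theta_spec (n : ℕ) :
    theta s n = n ∨ ∃ j, theta s n = s j ∧ s j ≤ n ∧ n ≤ 2 * s j := by
  classical
  unfold theta
  exact Nat.find_spec (p := fun t => t = n ∨ ∃ j, t = s j ∧ s j ≤ n ∧ n ≤ 2 * s j) _

theorem theta_le_of {n t : ℕ} (h : t = n ∨ ∃ j, t = s j ∧ s j ≤ n ∧ n ≤ 2 * s j) :
    theta s n ≤ t := by
  classical
  unfold theta
  exact Nat.find_min' _ h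

theorem theta_le (n : ℕ) : theta s n ≤ n := theta_le_of s (Or.inl rfl)

theorem le_two_theta (n : ℕ) : n ≤ 2 * theta s n := by
  rcases theta_spec s n with h | ⟨j, h, -, h2⟩
  · omega
  · omega

theorem theta_mono {m n : ℕ} (h : m ≤ n) : theta s m ≤ theta s n := by
  rcases theta_spec s n with hn | ⟨j, hn, h1, h2⟩
  · rw [hn]
    exact (theta_le s m).trans h
  · rw [hn]
    rcases Nat.lt_or_ge m (s j) with hm | hm
    · exact (theta_le s m).trans hm.le
    · exact theta_le_of s (Or.inr ⟨j, rfl, hm, by omega⟩)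

variable (hs : ∀ j, 2 * s j < s (j + 1)) (h0 : 1 ≤ s 0)

include hs h0 in
theorem s_pos (j : ℕ) : 1 ≤ s j := by
  induction j with
  | zero => exact h0
  | succ j ih => have := hs j; omega

include hs h0 in
theorem s_lt {i j : ℕ} (h : i < j) : 2 * s i < s j := by
  induction j, h using Nat.le_induction with
  | base => exact hs i
  | succ k _ ih =>
    have h1 := hs k
    have h2 := s_pos s hs h0 k
    omega

include hs h0 in
theorem theta_two (j : ℕ) : theta s (2 * s j) = s j := by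
  have h1 := s_pos s hs h0 j
  apply le_antisymm
  · exact theta_le_of s (Or.inr ⟨j, rfl, by omega, le_rfl⟩)
  · have := le_two_theta s (2 * s j)
    omega

include hs h0 in
theorem theta_self (j : ℕ) : theta s (s j) = s j := by
  have h1 := s_pos s hs h0 j
  rcases theta_spec s (s j) with h | ⟨i, h, h2, h3⟩
  · exact h
  · rcases lt_trichotomy i j with hij | hij | hij
    · have := s_lt s hs h0 hij
      omega
    · rw [h, hij]
    · have := s_lt s hs h0 hij
      have := s_pos s hs h0 i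
      omega

theorem theta_out {n : ℕ} (hn : ∀ j, ¬ (s j < n ∧ n ≤ 2 * s j)) : theta s n = n := by
  rcases theta_spec s n with h | ⟨i, h, h2, h3⟩
  · exact h
  · rcases Nat.lt_or_ge (s i) n with h4 | h4
    · exact absurd ⟨h4, h3⟩ (hn i)
    · omega

end profile

theorem root_pow {x : ℝ} (hx : 0 < x) {n : ℕ} (hn : 1 ≤ n) : (x ^ n) ^ (1 / (n : ℝ)) = x := by
  rw [one_div]
  exact Real.pow_rpow_inv_natCast hx.le (by omega)

theorem profile_part {ρ : ℕ → ℝ} (hρ : ∀ n, 1 ≤ n → 0 < ρ n)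
    (hanti : ∀ m n, 1 ≤ m → m ≤ n → ρ n ≤ ρ m) (hlim : Tendsto ρ atTop (𝓝 0)) {s : ℕ → ℕ}
    (h0 : 1 ≤ s 0) (hs : ∀ j, 2 * s j < s (j + 1)) :
    ∃ ω : ℕ → ℝ, Conditions ω ∧ (∀ n, 1 ≤ n → 0 < ω n) ∧
      (∀ n, 1 ≤ n → (∀ j, ¬ (s j < n ∧ n ≤ 2 * s j)) → ω n = ρ n ^ n) ∧
      (∀ n, 1 ≤ n → ρ n ^ n ≤ ω n ∧ ω n ≤ ρ ((n + 1) / 2) ^ n) ∧
      ¬ IsNormSeqMeasure ω ∧ ¬ IsNormSeqL1 ω := by
  have hθ1 : ∀ n, 1 ≤ n → 1 ≤ theta s n := by
    intro n hn
    have := le_two_theta s n
    omega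
  have hpos : ∀ n, 1 ≤ n → 0 < ρ (theta s n) := fun n hn => hρ _ (hθ1 n hn)
  have hflat : ∀ j, ρ (theta s (2 * s j)) ^ (2 * s j) = (ρ (theta s (s j)) ^ (s j)) ^ 2 := by
    intro j
    rw [theta_two s hs h0, theta_self s hs h0, ← pow_mul, mul_comm 2]
  have hlarge : ∀ N : ℕ, ∃ j, N ≤ s j := by
    intro N
    refine ⟨N, ?_⟩
    induction N with
    | zero => omega
    | succ N ih =>
      have h1 := hs N
      have h2 := s_pos s hs h0 N
      omega
  have hmeas : ¬ IsNormSeqMeasure (fun n => ρ (theta s n) ^ n) := by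
    rintro ⟨a, ha, hn⟩
    obtain ⟨N, hN⟩ := meas_part ha (by
      intro n hn1 h0'
      have e1 := hn n hn1
      rw [h0'] at e1
      simp only [VectorMeasure.variation_zero, Measure.coe_zero, Pi.zero_apply] at e1
      have := ENNReal.ofReal_pos.2 (pow_pos (hpos n hn1) n)
      rw [← e1] at this
      exact lt_irrefl _ this)
    obtain ⟨j, hj⟩ := hlarge N
    have h1 := hN (s j) hj
    have hsj := s_pos s hs h0 j
    have e1 : measNorm a (2 * s j) = ENNReal.ofReal (ρ (theta s (2 * s j)) ^ (2 * s j)) :=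
      hn _ (by omega)
    have e2 : measNorm a (s j) = ENNReal.ofReal (ρ (theta s (s j)) ^ (s j)) := hn _ hsj
    rw [e1, e2, hflat, ENNReal.ofReal_pow (pow_pos (hpos _ hsj) _).le] at h1
    exact lt_irrefl _ h1
  refine ⟨fun n => ρ (theta s n) ^ n, ⟨?_, ?_, ?_, ?_⟩, ?_, ?_, ?_, hmeas, ?_⟩
  · exact fun n hn => (pow_pos (hpos n hn) n).le
  · intro m n hm hn
    simp only
    rw [pow_add]
    have hp := (hpos (m + n) (by omega)).le
    apply mul_le_mul
    · exact pow_le_pow_left₀ hp (hanti _ _ (hθ1 m hm) (theta_mono s (by omega))) _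
    · exact pow_le_pow_left₀ hp (hanti _ _ (hθ1 n hn) (theta_mono s (by omega))) _
    · exact pow_nonneg hp _
    · exact pow_nonneg (hpos m hm).le _
  · have hθ : Tendsto (theta s) atTop atTop := by
      apply tendsto_atTop_atTop.2
      intro b
      refine ⟨2 * b, fun n hn => ?_⟩
      have := le_two_theta s n
      omega
    refine (hlim.comp hθ).congr' ?_
    filter_upwards [eventually_ge_atTop 1] with n hn
    rw [Function.comp, root_pow (hpos n hn) hn]
  · intro m n hm hmn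
    simp only
    rw [root_pow (hpos m hm) hm, root_pow (hpos n (hm.trans hmn)) (hm.trans hmn)]
    exact hanti _ _ (hθ1 m hm) (theta_mono s hmn)
  · exact fun n hn => pow_pos (hpos n hn) n
  · intro n _ hout
    simp only
    rw [theta_out s hout]
  · intro n hn
    simp only
    have h2 := le_two_theta s n
    exact ⟨pow_le_pow_left₀ (hρ n hn).le (hanti _ _ (hθ1 n hn) (theta_le s n)) _,
      pow_le_pow_left₀ (hpos n hn).le (hanti _ _ (by omega) (by omega)) _⟩
  · rintro ⟨f, hf, hn⟩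
    apply hmeas
    have hf' : IntegrableOn f (Ioo 0 1) := hf.mono_set Ioo_subset_Icc_self
    refine ⟨toMeas f, toMeas_restrict hf', fun n hn1 => ?_⟩
    have h := fun_norm hf' hn1
    rw [measNorm] at h
    rw [h, funNorm, hn _ hn1]

/-- (1) If `a ∈ M(0,1)` has no power equal to zero, then `‖a^{2n}‖ < ‖a^n‖ ^ 2` for all large `n`.
(2) The same for `f ∈ L^1[0,1]`.
(3) Let `(ρ_n)` be any decreasing sequence of positive numbers with limit `0` and let
`s_0 < s_1 < ⋯` be positive integers with `2 s_j < s_{j+1}`.  Then there is a sequence `(ω_n)` of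
positive numbers with (i)-(iv), with `ω_n = ρ_n ^ n` for all `n` outside the blocks
`s_j < n ≤ 2 s_j`, and with `ρ_n ^ n ≤ ω_n ≤ ρ_{⌈n/2⌉} ^ n` for all `n`, which is not the sequence of
norms of the powers of an element of `M(0,1)` or of `L^1[0,1]`.
(4) In particular there is a sequence with (i)-(iv) which is not of this form, for both algebras. -/
theorem result :
    (∀ a : ComplexMeasure ℝ, a.restrict (Ioo 0 1) = a → (∀ n, 1 ≤ n → measPow a n ≠ 0) →
      ∃ N : ℕ, ∀ n ≥ N, measNorm a (2 * n) < (measNorm a n) ^ 2) ∧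
    (∀ f : ℝ → ℂ, IntegrableOn f (Icc 0 1) → (∀ n, 1 ≤ n → funNorm f n ≠ 0) →
      ∃ N : ℕ, ∀ n ≥ N, funNorm f (2 * n) < (funNorm f n) ^ 2) ∧
    (∀ ρ : ℕ → ℝ, (∀ n, 1 ≤ n → 0 < ρ n) → (∀ m n, 1 ≤ m → m ≤ n → ρ n ≤ ρ m) →
      Tendsto ρ atTop (𝓝 0) → ∀ s : ℕ → ℕ, 1 ≤ s 0 → (∀ j, 2 * s j < s (j + 1)) →
      ∃ ω : ℕ → ℝ, Conditions ω ∧ (∀ n, 1 ≤ n → 0 < ω n) ∧
        (∀ n, 1 ≤ n → (∀ j, ¬ (s j < n ∧ n ≤ 2 * s j)) → ω n = ρ n ^ n) ∧
        (∀ n, 1 ≤ n → ρ n ^ n ≤ ω n ∧ ω n ≤ ρ ((n + 1) / 2) ^ n) ∧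
        ¬ IsNormSeqMeasure ω ∧ ¬ IsNormSeqL1 ω) ∧
    (∃ ω : ℕ → ℝ, Conditions ω ∧ ¬ IsNormSeqMeasure ω ∧ ¬ IsNormSeqL1 ω) := by
  refine ⟨fun a ha hne => meas_part ha hne, fun f hf hne => fun_part hf hne,
    fun ρ h1 h2 h3 s h4 h5 => profile_part h1 h2 h3 h4 h5, ?_⟩
  obtain ⟨ω, h1, -, -, -, h2, h3⟩ := profile_part (ρ := fun n => 1 / ((n : ℝ) + 1))
    (fun n _ => by positivity)
    (fun m n _ hmn => by
      apply one_div_le_one_div_of_le (by positivity)
      have : (m : ℝ) ≤ n := by exact_mod_cast hmn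
      linarith)
    (tendsto_one_div_add_atTop_nhds_zero_nat) (s := fun j => 3 ^ j) (by simp)
    (fun j => by
      have : 0 < 3 ^ j := by positivity
      rw [pow_succ]
      omega)
  exact ⟨ω, h1, h2, h3⟩

end Pool.Agent.Results.MP_81f94f_an.FinitelyManyFlatSteps
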